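import Pool.Agent.Helper94.PF.Pos

/-!
Antisymmetric elements of the group ring of the weight space.
-/

open RootPairing Set Function

set_option linter.unusedSectionVars false

namespace H94W

noncomputable section

variable {ι K M N : Type*} [Field K] [CharZero K] [AddCommGroup M] [Module K M]
  [AddCommGroup N] [Module K N] {P : RootPairing ι K M N}

variable [Finite ι] [P.IsCrystallographic] [P.IsReduced] (b : P.Base)

/-- antisymmetric functions on the weight space -/
def Anti {S : Type*} [Neg S] (x : M → S) : Prop :=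
  ∀ j ∈ b.support, ∀ ν, x (RootPairing.Equiv.reflection P j • ν) = - x ν

theorem Anti.word {S : Type*} [AddCommGroup S] {x : M → S} (hx : Anti b x) (l : List ι)
    (hl : ∀ j ∈ l, j ∈ b.support) (ν : M) :
    x (word P l • ν) = ((sgn b (word P l) : ℤˣ) : ℤ) • x ν := by
  induction l with
  | nil => simp
  | cons j t ih =>
    have hj : j ∈ b.support := hl j List.mem_cons_self
    rw [word_cons, mul_smul, hx j hj, ih (fun k hk => hl k (List.mem_cons_of_mem _ hk)), map_mul,
      sgn_refl b hj]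
    simp

theorem Anti.smul {S : Type*} [AddCommGroup S] {x : M → S} (hx : Anti b x) {w : P.Aut}
    (hw : w ∈ P.weylGroup) (ν : M) : x (w • ν) = ((sgn b w : ℤˣ) : ℤ) • x ν := by
  obtain ⟨l, hl, rfl⟩ := exists_word b hw
  exact hx.word b l hl ν

theorem sgn_zsmul_ne {S : Type*} [AddCommGroup S] {s : S} (hs : s ≠ 0) (e : ℤˣ) :
    (e : ℤ) • s ≠ 0 := by
  rcases Int.units_eq_one_or e with rfl | rfl
  · simpa using hs
  · simpa using hs

/-- an integral weight is conjugate to a dominant one -/
theorem exists_dominant [P.IsRootSystem] {x : M} (hx : Integral P x) :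
    ∃ w ∈ P.weylGroup, ∀ j ∈ b.support, ∃ z : ℤ, 0 ≤ z ∧ pr P (w • x) j = z := by
  have hlev : ∀ w : P.weylGroup, ∃ z : ℤ, lev b (w.1 • x) = z := fun w =>
    lev_integral b (hx.smul w.1)
  choose f hf using hlev
  obtain ⟨w, hw⟩ := Finite.exists_max f
  refine ⟨w.1, w.2, ?_⟩
  intro j hj
  obtain ⟨z, hz⟩ := hx.smul w.1 j
  refine ⟨z, ?_, hz⟩
  have h1 := hw ⟨RootPairing.Equiv.reflection P j * w.1,
    P.weylGroup.mul_mem (P.reflection_mem_weylGroup j) w.2⟩
  have h2 := hf ⟨RootPairing.Equiv.reflection P j * w.1,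
    P.weylGroup.mul_mem (P.reflection_mem_weylGroup j) w.2⟩
  have h3 := hf w
  rw [mul_smul, lev_refl b _ hj, hz, h3] at h2
  have h4 : f w - (z + z) = f ⟨RootPairing.Equiv.reflection P j * w.1,
    P.weylGroup.mul_mem (P.reflection_mem_weylGroup j) w.2⟩ := by exact_mod_cast h2
  omega

/-- an integral exponent of an antisymmetric function is conjugate to a strictly dominant one -/
theorem Anti.exists_strict [P.IsRootSystem] {S : Type*} [AddCommGroup S]
    (hS : ∀ s : S, s = -s → s = 0) {x : M → S} (hx : Anti b x) {ν : M} (hν : Integral P ν)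
    (hxν : x ν ≠ 0) : ∃ w ∈ P.weylGroup, Strict b (w • ν) := by
  have hlev : ∀ w : P.weylGroup, ∃ z : ℤ, lev b (w.1 • ν) = z := fun w =>
    lev_integral b (hν.smul w.1)
  choose f hf using hlev
  obtain ⟨w, hw⟩ := Finite.exists_max f
  refine ⟨w.1, w.2, ?_⟩
  intro j hj
  obtain ⟨z, hz⟩ := hν.smul w.1 j
  refine ⟨z, ?_, hz⟩
  have h1 := hw ⟨RootPairing.Equiv.reflection P j * w.1,
    P.weylGroup.mul_mem (P.reflection_mem_weylGroup j) w.2⟩
  have h2 := hf ⟨RootPairing.Equiv.reflection P j * w.1,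
    P.weylGroup.mul_mem (P.reflection_mem_weylGroup j) w.2⟩
  have h3 := hf w
  rw [mul_smul, lev_refl b _ hj, hz, h3] at h2
  have h4 : f w - (z + z) = f ⟨RootPairing.Equiv.reflection P j * w.1,
    P.weylGroup.mul_mem (P.reflection_mem_weylGroup j) w.2⟩ := by exact_mod_cast h2
  have h5 : 0 ≤ z := by omega
  rcases h5.lt_or_eq with h6 | h6
  · exact h6
  · exfalso
    have h7 : RootPairing.Equiv.reflection P j • (w.1 • ν) = w.1 • ν := by
      rw [refl_smul_pr, hz, ← h6]
      simp
    have h8 := hx j hj (w.1 • ν)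
    rw [h7] at h8
    have h9 := hS _ h8
    rw [hx.smul b w.2] at h9
    exact sgn_zsmul_ne hxν _ h9

/-- an antisymmetric element of the group ring with only one strictly dominant exponent -/
theorem antisym_eq [P.IsRootSystem] [Fintype P.weylGroup] {S : Type*} [CommRing S]
    (hS : ∀ s : S, s = -s → s = 0) (x : AddMonoidAlgebra S M) (hx : Anti b (fun ν => x.coeff ν))
    (hint : ∀ ν, x.coeff ν ≠ 0 → Integral P ν) (Λ : M) (hΛ : Strict b Λ)
    (huniq : ∀ ν, x.coeff ν ≠ 0 → Strict b ν → ν = Λ) :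
    x = ∑ w : P.weylGroup,
      AddMonoidAlgebra.single (w.1 • Λ) (((sgn b w.1 : ℤˣ) : ℤ) • x.coeff Λ) := by
  classical
  ext ν
  rw [AddMonoidAlgebra.coeff_sum, Finsupp.finsetSum_apply]
  simp only [AddMonoidAlgebra.coeff_single, Finsupp.single_apply]
  by_cases h : ∃ w : P.weylGroup, w.1 • Λ = ν
  · obtain ⟨w, rfl⟩ := h
    rw [Finset.sum_eq_single w]
    · rw [if_pos rfl]
      exact hx.smul b w.2 Λ
    · intro w' _ hne
      rw [if_neg]
      intro h1
      apply hne
      have h2 : (w.1⁻¹ * w'.1) • Λ = Λ := by rw [mul_smul, h1, inv_smul_smul]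
      have h3 := hΛ.stab b (P.weylGroup.mul_mem (P.weylGroup.inv_mem w.2) w'.2) h2
      exact Subtype.ext (inv_mul_eq_one.mp h3).symm
    · intro h1
      exact absurd (Finset.mem_univ w) h1
  · rw [Finset.sum_eq_zero]
    · by_contra hne
      obtain ⟨w, hw, hs⟩ := Anti.exists_strict b hS hx (hint ν hne) hne
      have h1 : x.coeff (w • ν) ≠ 0 := by
        have := hx.smul b hw ν
        rw [this]
        exact sgn_zsmul_ne hne _
      have h2 := huniq _ h1 hs
      apply h
      exact ⟨⟨w⁻¹, P.weylGroup.inv_mem hw⟩, by rw [← h2, inv_smul_smul]⟩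
    · intro w _
      rw [if_neg]
      intro h1
      exact h ⟨w, h1⟩

end

end H94W
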