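import Pool.Agent.Helper94.PF.AntiSym

/-!
The Weyl denominator identity.
-/

open RootPairing Set Function

set_option linter.unusedSectionVars false

namespace H94W

noncomputable section

variable {ι K M N : Type*} [Field K] [CharZero K] [AddCommGroup M] [Module K M]
  [AddCommGroup N] [Module K N] {P : RootPairing ι K M N}

/-! ### the action on the group ring -/

/-- the action of an automorphism on the group ring of the weight space -/
def act (S : Type*) [CommRing S] (w : P.Aut) : AddMonoidAlgebra S M →+* AddMonoidAlgebra S M :=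
  AddMonoidAlgebra.mapDomainRingHom S (DistribSMul.toAddMonoidHom M w)

theorem act_single (S : Type*) [CommRing S] (w : P.Aut) (ν : M) (s : S) :
    act S w (AddMonoidAlgebra.single ν s) = AddMonoidAlgebra.single (w • ν) s := by
  simp [act]

theorem act_coeff (S : Type*) [CommRing S] (w : P.Aut) (x : AddMonoidAlgebra S M) (ν : M) :
    (act S w x).coeff (w • ν) = x.coeff ν := by
  have h : (act S w x).coeff = Finsupp.mapDomain (fun y => w • y) x.coeff := rfl
  rw [h]
  exact Finsupp.mapDomain_apply (MulAction.injective w) _ _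

variable [Finite ι] [P.IsCrystallographic] [P.IsReduced] (b : P.Base)

theorem anti_of_act {S : Type*} [CommRing S] {x : AddMonoidAlgebra S M}
    (h : ∀ j ∈ b.support, act S (RootPairing.Equiv.reflection P j) x = - x) :
    Anti b (fun ν => x.coeff ν) := by
  intro j hj ν
  have h1 := act_coeff S (RootPairing.Equiv.reflection P j) x ν
  rw [h j hj] at h1
  have h2 : (-x).coeff (RootPairing.Equiv.reflection P j • ν) =
    - x.coeff (RootPairing.Equiv.reflection P j • ν) := by simp
  rw [h2] at h1
  show x.coeff _ = - x.coeff ν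
  rw [← h1, neg_neg]

/-- `e^(a/2) - e^(-a/2)` -/
def dd (P : RootPairing ι K M N) (S : Type*) [CommRing S] (i : ι) : AddMonoidAlgebra S M :=
  AddMonoidAlgebra.single ((1 / 2 : K) • P.root i) 1 -
    AddMonoidAlgebra.single (-((1 / 2 : K) • P.root i)) 1

/-- the Weyl denominator -/
def delta (S : Type*) [CommRing S] : AddMonoidAlgebra S M := ∏ i ∈ pos b, dd P S i

theorem dd_ng (S : Type*) [CommRing S] (i : ι) : dd P S (P.reflectionPerm i i) = - dd P S i := by
  rw [dd, dd, root_ng]
  simp

theorem act_dd (S : Type*) [CommRing S] (w : P.Aut) (i : ι) : act S w (dd P S i) = dd P S (w • i) := by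
  rw [dd, map_sub, act_single, act_single, dd, root_smul, smul_neg, smul_comm w]

theorem dd_ab (S : Type*) [CommRing S] (i : ι) :
    dd P S i = ((u b i : ℤˣ) : ℤ) • dd P S (ab b i) := by
  by_cases h : b.IsPos i
  · rw [u_pos b h, ab_of_isPos b h]; simp
  · rw [u_neg b h, ab_of_not b h, dd_ng]; simp

theorem act_delta (S : Type*) [CommRing S] (w : P.Aut) :
    act S w (delta b S) = ((sgn b w : ℤˣ) : ℤ) • delta b S := by
  rw [delta, map_prod]
  have h1 : ∀ i ∈ pos b, act S w (dd P S i) =
      (((u b (w • i) : ℤˣ) : ℤ) : AddMonoidAlgebra S M) * dd P S (ab b (w • i)) := by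
    intro i _
    rw [act_dd, dd_ab b, zsmul_eq_mul]
  rw [Finset.prod_congr rfl h1, Finset.prod_mul_distrib, prod_ab b w (fun i => dd P S i),
    sgn_apply, zsmul_eq_mul]
  push_cast
  rfl

theorem anti_delta (S : Type*) [CommRing S] : Anti b (fun ν => (delta b S).coeff ν) := by
  apply anti_of_act
  intro j hj
  rw [act_delta, sgn_refl b hj]
  simp

/-! ### the exponents of the denominator -/

/-- the sums of simple roots -/
def cone : AddSubmonoid M := AddSubmonoid.closure (P.root '' b.support)

theorem integral_cone {x : M} (hx : x ∈ cone b) : Integral P x := by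
  unfold cone at hx
  induction hx using AddSubmonoid.closure_induction with
  | mem x hx =>
    obtain ⟨j, -, rfl⟩ := hx
    exact integral_root j
  | zero => exact integral_zero
  | add x y _ _ hx hy => exact hx.add hy

theorem cone_neg {x : M} (hx : x ∈ cone b) (hx' : -x ∈ cone b) : x = 0 := by
  obtain ⟨m, h1, h2⟩ := lev_closure b hx
  obtain ⟨m', h3, h4⟩ := lev_closure b hx'
  have h5 : lev b (-x) = - lev b x := by
    have := lev_smul b (-1 : K) x
    simpa using this
  rw [h5, h1] at h3
  have h6 : ((m + m' : ℕ) : K) = 0 := by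
    push_cast
    have : (2 : K) * (m + m') = 0 := by linear_combination -h3
    exact (mul_eq_zero.mp this).resolve_left two_ne_zero
  have h7 : m + m' = 0 := by exact_mod_cast h6
  exact h2 (by omega)

theorem coeff_dd_mul (S : Type*) [CommRing S] (i : ι) (x : AddMonoidAlgebra S M) (ν : M) :
    (dd P S i * x).coeff ν =
      x.coeff (ν - (1 / 2 : K) • P.root i) - x.coeff (ν + (1 / 2 : K) • P.root i) := by
  rw [dd, sub_mul]
  have h1 : (AddMonoidAlgebra.single ((1 / 2 : K) • P.root i) (1 : S) * x).coeff ν =
      x.coeff (ν - (1 / 2 : K) • P.root i) := by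
    rw [AddMonoidAlgebra.coeff_single_mul_eq_mul_coeff (ν - (1 / 2 : K) • P.root i), one_mul]
    intro m _
    constructor
    · rintro rfl; abel
    · rintro rfl; abel
  have h2 : (AddMonoidAlgebra.single (-((1 / 2 : K) • P.root i)) (1 : S) * x).coeff ν =
      x.coeff (ν + (1 / 2 : K) • P.root i) := by
    rw [AddMonoidAlgebra.coeff_single_mul_eq_mul_coeff (ν + (1 / 2 : K) • P.root i), one_mul]
    intro m _
    constructor
    · rintro rfl; abel
    · rintro rfl; abel
  rw [AddMonoidAlgebra.coeff_sub, Finsupp.sub_apply, h1, h2]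

theorem half_add (i : ι) : (1 / 2 : K) • P.root i + (1 / 2 : K) • P.root i = P.root i := by
  rw [← add_smul]; norm_num

/-- exponents and leading coefficient of partial products -/
theorem partial_prod (S : Type*) [CommRing S] (s : Finset ι) (hs : ∀ i ∈ s, b.IsPos i) :
    (∀ ν, (∏ i ∈ s, dd P S i).coeff ν ≠ 0 →
      ∃ κ ∈ cone b, ν = ∑ i ∈ s, (1 / 2 : K) • P.root i - κ) ∧
    (∏ i ∈ s, dd P S i).coeff (∑ i ∈ s, (1 / 2 : K) • P.root i) = 1 := by
  classical
  induction s using Finset.induction_on with
  | empty =>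
    constructor
    · intro ν h
      refine ⟨0, (cone b).zero_mem, ?_⟩
      rw [Finset.prod_empty, AddMonoidAlgebra.one_def] at h
      by_contra h1
      apply h
      simp only [AddMonoidAlgebra.coeff_single, Finsupp.single_apply]
      rw [if_neg]
      intro h2
      apply h1
      simp [← h2]
    · rw [Finset.prod_empty, AddMonoidAlgebra.one_def]
      simp
  | insert i s hi ih =>
    obtain ⟨h1, h2⟩ := ih (fun k hk => hs k (Finset.mem_insert_of_mem hk))
    have hpos := hs i (Finset.mem_insert_self i s)
    have hroot : P.root i ∈ cone b := root_mem_closure b hpos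
    rw [Finset.prod_insert hi, Finset.sum_insert hi]
    constructor
    · intro ν h
      rw [coeff_dd_mul] at h
      by_cases h3 : (∏ i ∈ s, dd P S i).coeff (ν - (1 / 2 : K) • P.root i) = 0
      · have h4 : (∏ i ∈ s, dd P S i).coeff (ν + (1 / 2 : K) • P.root i) ≠ 0 := by
          intro h4
          apply h
          rw [h3, h4, sub_zero]
        obtain ⟨κ, h5, h6⟩ := h1 _ h4
        refine ⟨κ + P.root i, (cone b).add_mem h5 hroot, ?_⟩
        rw [eq_sub_iff_add_eq] at h6
        rw [← h6]
        module
      · obtain ⟨κ, h5, h6⟩ := h1 _ h3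
        refine ⟨κ, h5, ?_⟩
        rw [eq_sub_iff_add_eq] at h6
        rw [← h6]
        module
    · rw [coeff_dd_mul, add_sub_cancel_left, h2]
      have h3 : (∏ i ∈ s, dd P S i).coeff ((1 / 2 : K) • P.root i +
          ∑ x ∈ s, (1 / 2 : K) • P.root x + (1 / 2 : K) • P.root i) = 0 := by
        by_contra h4
        obtain ⟨κ, h5, h6⟩ := h1 _ h4
        have h7 : - P.root i = κ := by
          rw [eq_sub_iff_add_eq] at h6
          have h8 := sub_eq_zero.mpr h6
          rw [← sub_eq_zero, ← neg_eq_zero, ← h8]
          module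
        have h8 := cone_neg b hroot (by rw [h7]; exact h5)
        exact P.ne_zero i h8
      rw [h3, sub_zero]

theorem delta_exp (S : Type*) [CommRing S] {ν : M} (h : (delta b S).coeff ν ≠ 0) :
    ∃ κ ∈ cone b, ν = rho b - κ := by
  obtain ⟨κ, h1, h2⟩ := (partial_prod b S (pos b) (by simp)).1 ν h
  exact ⟨κ, h1, by rw [h2, rho, rho2, Finset.smul_sum]⟩

theorem delta_top (S : Type*) [CommRing S] : (delta b S).coeff (rho b) = 1 := by
  have := (partial_prod b S (pos b) (by simp)).2
  rw [← Finset.smul_sum] at this
  exact this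

/-- a sum of simple roots that is antidominant vanishes -/
theorem cone_antidominant {κ : M} (hκ : κ ∈ cone b)
    (h : ∀ j ∈ b.support, ∃ z : ℤ, z ≤ 0 ∧ pr P κ j = z) : κ = 0 := by
  classical
  have : Fintype ι := Fintype.ofFinite ι
  choose f hf using integral_cone b hκ
  have h1 : ∀ j, P.RootForm (P.root j) (P.root j) * pr P κ j = 2 * P.RootForm κ (P.root j) := by
    intro j
    have h2 := congrArg (P.toLinearMap κ) (P.rootForm_self_smul_coroot j)
    rw [map_smul, map_nsmul, toLinearMap_apply_apply_Polarization] at h2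
    have h3 : P.RootForm (P.root j) κ = P.RootForm κ (P.root j) :=
      P.rootForm_symmetric.eq (P.root j) κ
    rw [h3] at h2
    rw [smul_eq_mul, nsmul_eq_mul] at h2
    exact_mod_cast h2
  have key : ∀ x ∈ cone b, ∃ z : ℤ, z ≤ 0 ∧ 2 * P.RootForm κ x = z := by
    intro x hx
    unfold cone at hx
    induction hx using AddSubmonoid.closure_induction with
    | mem x hx =>
      obtain ⟨j, hj, rfl⟩ := hx
      obtain ⟨z, hz, hz'⟩ := h j hj
      refine ⟨(∑ i, P.pairingIn ℤ j i * P.pairingIn ℤ j i) * z, ?_, ?_⟩
      · apply mul_nonpos_of_nonneg_of_nonpos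
        · exact Finset.sum_nonneg fun i _ => mul_self_nonneg _
        · exact hz
      · rw [← h1, hz', P.rootForm_root_self]
        push_cast
        congr 1
        refine Finset.sum_congr rfl fun i _ => ?_
        rw [← P.algebraMap_pairingIn ℤ j i]
        simp
    | zero => exact ⟨0, le_rfl, by simp⟩
    | add x y _ _ hx hy =>
      obtain ⟨z, hz, hz'⟩ := hx
      obtain ⟨t, ht, ht'⟩ := hy
      exact ⟨z + t, by omega, by rw [map_add, mul_add, hz', ht']; push_cast; rfl⟩
  obtain ⟨z, hz, hz'⟩ := key κ hκ
  have h2 : P.RootForm κ κ = ∑ i, (f i : K) * f i := by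
    rw [P.rootForm_apply_apply]
    refine Finset.sum_congr rfl fun i _ => ?_
    have : P.coroot' i κ = pr P κ i := rfl
    rw [this, hf i]
  rw [h2] at hz'
  have h3 : 2 * ∑ i, f i * f i = z := by exact_mod_cast hz'
  have h4 : ∑ i, f i * f i = 0 := by
    have : 0 ≤ ∑ i, f i * f i := Finset.sum_nonneg fun i _ => mul_self_nonneg _
    omega
  have h5 : ∀ i, f i = 0 := by
    intro i
    have := (Finset.sum_eq_zero_iff_of_nonneg (fun i _ => mul_self_nonneg (f i))).mp h4 i
      (Finset.mem_univ i)
    exact mul_self_eq_zero.mp this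
  have h6 : lev b κ = 0 := by
    rw [lev]
    apply Finset.sum_eq_zero
    intro i _
    rw [hf i, h5 i]
    simp
  obtain ⟨m, h7, h8⟩ := lev_closure b hκ
  rw [h6] at h7
  apply h8
  have h9 : (m : K) = 0 := by
    have : (2 : K) * m = 0 := h7.symm
    exact (mul_eq_zero.mp this).resolve_left two_ne_zero
  exact_mod_cast h9

theorem two_rho_integral : Integral P (rho2 b) := by
  have h : ∀ s : Finset ι, Integral P (∑ i ∈ s, P.root i) := by
    classical
    intro s
    induction s using Finset.induction_on with
    | empty => simpa using integral_zero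
    | insert i s hi ih =>
      rw [Finset.sum_insert hi]
      exact (integral_root i).add ih
  exact h _

/-- `rho` is integral -/
theorem integral_rho : Integral P (rho b) := by
  intro i
  have key : ∀ n ∈ AddSubmonoid.closure (P.coroot '' b.support),
      ∃ z : ℤ, P.toLinearMap (rho b) n = z := by
    intro n hn
    induction hn using AddSubmonoid.closure_induction with
    | mem n hn =>
      obtain ⟨j, hj, rfl⟩ := hn
      exact ⟨1, by simpa [pr] using pr_rho b hj⟩
    | zero => exact ⟨0, by simp⟩
    | add x y _ _ hx hy =>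
      obtain ⟨z, hz⟩ := hx
      obtain ⟨t, ht⟩ := hy
      exact ⟨z + t, by rw [map_add, hz, ht]; push_cast; rfl⟩
  by_cases h : b.IsPos i
  · exact key _ (coroot_mem_closure b h)
  · have h1 : b.IsPos (P.reflectionPerm i i) := by rw [isPos_ng]; exact h
    obtain ⟨z, hz⟩ := key _ (coroot_mem_closure b h1)
    refine ⟨-z, ?_⟩
    rw [coroot_ng, map_neg] at hz
    rw [pr, ← neg_neg (P.toLinearMap (rho b) (P.coroot i)), hz]
    push_cast; rfl

/-- Weyl's denominator identity -/
theorem delta_eq [P.IsRootSystem] [Fintype P.weylGroup] {S : Type*} [CommRing S]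
    (hS : ∀ s : S, s = -s → s = 0) :
    delta b S = ∑ w : P.weylGroup,
      AddMonoidAlgebra.single (w.1 • rho b) (((sgn b w.1 : ℤˣ) : ℤ) • (1 : S)) := by
  have h := antisym_eq b hS (delta b S) (anti_delta b S) ?_ (rho b) (strict_rho b) ?_
  · rw [delta_top] at h
    exact h
  · intro ν hν
    obtain ⟨κ, h1, rfl⟩ := delta_exp b S hν
    exact (integral_rho b).sub (integral_cone b h1)
  · intro ν hν hs
    obtain ⟨κ, h1, rfl⟩ := delta_exp b S hν
    have h2 : κ = 0 := by
      apply cone_antidominant b h1
      intro j hj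
      obtain ⟨z, h3, h4⟩ := hs j hj
      refine ⟨1 - z, by omega, ?_⟩
      rw [pr_sub, pr_rho b hj] at h4
      push_cast
      rw [← h4]
      ring
    rw [h2, sub_zero]

end

end H94W
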