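import Pool.Agent.Helper94.PF.Weyl

/-!
Positive roots: half sums, the flip, levels, dominance.
-/

open RootPairing Set Function

set_option linter.unusedSectionVars false

namespace H94W

noncomputable section

variable {ι K M N : Type*} [Field K] [CharZero K] [AddCommGroup M] [Module K M]
  [AddCommGroup N] [Module K N] {P : RootPairing ι K M N}

variable [Finite ι] [P.IsCrystallographic] [P.IsReduced] (b : P.Base)

theorem isPos_refl_iff {i j : ι} (hj : j ∈ b.support) (hij : i ≠ j)
    (hij' : i ≠ P.reflectionPerm j j) :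
    b.IsPos (P.reflectionPerm j i) ↔ b.IsPos i := by
  constructor
  · intro h
    by_contra h1
    have h2 : b.IsPos (P.reflectionPerm i i) := by rw [isPos_ng]; exact h1
    have h3 : P.reflectionPerm i i ≠ j := by
      intro e
      apply hij'
      rw [← e, ng_ng]
    have h4 := h2.reflectionPerm hj h3
    have h5 : P.reflectionPerm j (P.reflectionPerm i i) =
        P.reflectionPerm (P.reflectionPerm j i) (P.reflectionPerm j i) := by
      have := smul_ng (P := P) (RootPairing.Equiv.reflection P j) i
      simpa [refl_smul_idx] using this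
    rw [h5, isPos_ng] at h4
    exact h4 h
  · intro h
    exact h.reflectionPerm hj hij

theorem isPos_flip (i : ι) : b.flip.IsPos i ↔ b.IsPos i := by
  refine b.induction_reflect i (p := fun i => b.flip.IsPos i ↔ b.IsPos i) ?_ ?_ ?_
  · intro i hi
    have h1 := isPos_ng b.flip i
    have h2 := isPos_ng b i
    have h3 : P.flip.reflectionPerm i i = P.reflectionPerm i i := rfl
    rw [h3] at h1
    rw [h1, h2, hi]
  · intro i hi
    have h1 : b.flip.IsPos i := Base.isPos_of_mem_support (b := b.flip) hi
    have h2 : b.IsPos i := Base.isPos_of_mem_support hi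
    simp [h1, h2]
  · intro i j hi hj
    have hj' : j ∈ b.flip.support := hj
    have p1 : b.IsPos j := Base.isPos_of_mem_support hj
    have p2 : b.flip.IsPos j := Base.isPos_of_mem_support hj'
    have h3 : ∀ k, P.flip.reflectionPerm j k = P.reflectionPerm j k := fun _ => rfl
    by_cases e1 : i = j
    · subst e1
      have h1 := isPos_ng b.flip i
      have h2 := isPos_ng b i
      rw [h3] at h1
      rw [h1, h2, hi]
    · by_cases e2 : i = P.reflectionPerm j j
      · subst e2
        have h4 : P.reflectionPerm j (P.reflectionPerm j j) = j := by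
          simp
        rw [h4]
        simp [p1, p2]
      · have h5 := isPos_refl_iff b hj e1 e2
        have h6 := isPos_refl_iff b.flip hj' e1 e2
        rw [h3] at h6
        rw [h5, h6, hi]

theorem root_mem_closure {i : ι} (hi : b.IsPos i) :
    P.root i ∈ AddSubmonoid.closure (P.root '' b.support) := by
  obtain ⟨f, hf, h | h⟩ := b.exists_root_eq_sum_nat_or_neg i
  · rw [h]
    apply AddSubmonoid.sum_mem
    intro j hj
    exact AddSubmonoid.nsmul_mem _ (AddSubmonoid.subset_closure (Set.mem_image_of_mem _ hj)) _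
  · exfalso
    have h1 := Base.height_eq_sum (b := b) (i := i) (f := fun j => -(f j : ℤ))
      (by rw [h, ← Finset.sum_neg_distrib]; simp)
    rw [Base.isPos_iff, h1] at hi
    have h2 : ∑ j ∈ b.support, (-(f j : ℤ)) ≤ 0 := Finset.sum_nonpos (by intro j _; simp)
    omega

theorem coroot_mem_closure {i : ι} (hi : b.IsPos i) :
    P.coroot i ∈ AddSubmonoid.closure (P.coroot '' b.support) := by
  have h : b.flip.IsPos i := (isPos_flip b i).mpr hi
  exact root_mem_closure b.flip h

/-- `<x, a_i^v>` -/
def pr (P : RootPairing ι K M N) (x : M) (i : ι) : K := P.toLinearMap x (P.coroot i)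

theorem pr_add (x y : M) (i : ι) : pr P (x + y) i = pr P x i + pr P y i := by simp [pr]

theorem pr_sub (x y : M) (i : ι) : pr P (x - y) i = pr P x i - pr P y i := by simp [pr]

theorem pr_neg (x : M) (i : ι) : pr P (-x) i = - pr P x i := by simp [pr]

theorem pr_smul (t : K) (x : M) (i : ι) : pr P (t • x) i = t * pr P x i := by simp [pr]

theorem pr_sum {α : Type*} (s : Finset α) (f : α → M) (i : ι) :
    pr P (∑ k ∈ s, f k) i = ∑ k ∈ s, pr P (f k) i := by simp [pr]

theorem pr_root (k i : ι) : pr P (P.root k) i = P.pairing k i := by simp [pr]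

theorem pr_smul_smul (w : P.Aut) (x : M) (i : ι) : pr P (w • x) (w • i) = pr P x i :=
  smul_pairing w x i

theorem pr_smul' (w : P.Aut) (x : M) (i : ι) : pr P (w • x) i = pr P x (w⁻¹ • i) := by
  conv_lhs => rw [← smul_inv_smul w i]
  rw [pr_smul_smul]

theorem coroot_ng (i : ι) : P.coroot (P.reflectionPerm i i) = - P.coroot i := by
  have := root_ng (P := P.flip) i
  exact this

theorem pr_ng (x : M) (i : ι) : pr P x (P.reflectionPerm i i) = - pr P x i := by
  simp only [pr, coroot_ng, map_neg]

theorem refl_smul_pr (j : ι) (x : M) :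
    RootPairing.Equiv.reflection P j • x = x - pr P x j • P.root j := refl_smul j x

/-- integral weights -/
def Integral (P : RootPairing ι K M N) (x : M) : Prop := ∀ i, ∃ z : ℤ, pr P x i = z

theorem Integral.smul {x : M} (hx : Integral P x) (w : P.Aut) : Integral P (w • x) := by
  intro i
  rw [pr_smul']
  exact hx _

theorem integral_root (k : ι) : Integral P (P.root k) := by
  intro i
  rw [pr_root]
  exact ⟨P.pairingIn ℤ k i, (P.algebraMap_pairingIn ℤ k i).symm⟩

theorem Integral.add {x y : M} (hx : Integral P x) (hy : Integral P y) : Integral P (x + y) := by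
  intro i
  obtain ⟨z, hz⟩ := hx i
  obtain ⟨t, ht⟩ := hy i
  exact ⟨z + t, by rw [pr_add, hz, ht]; push_cast; rfl⟩

theorem Integral.neg {x : M} (hx : Integral P x) : Integral P (-x) := by
  intro i
  obtain ⟨z, hz⟩ := hx i
  exact ⟨-z, by rw [pr_neg, hz]; push_cast; rfl⟩

theorem Integral.sub {x y : M} (hx : Integral P x) (hy : Integral P y) : Integral P (x - y) := by
  rw [sub_eq_add_neg]
  exact hx.add hy.neg

theorem integral_zero : Integral P (0 : M) := fun i => ⟨0, by simp [pr]⟩

/-- strictly dominant (integral on the simple coroots) -/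
def Strict (x : M) : Prop := ∀ j ∈ b.support, ∃ z : ℤ, 0 < z ∧ pr P x j = z

/-- sum of positive roots -/
def rho2 : M := ∑ i ∈ pos b, P.root i

/-- half the sum of the positive roots -/
def rho : M := (1 / 2 : K) • rho2 b

/-- the sum of `<x, a^v>` over the positive roots -/
def lev (x : M) : K := ∑ i ∈ pos b, pr P x i

theorem smul_rho2 {j : ι} (hj : j ∈ b.support) :
    RootPairing.Equiv.reflection P j • rho2 b = rho2 b - (P.root j + P.root j) := by
  rw [rho2, Finset.smul_sum, ← sum_refl b (fun i => P.root i) (fun i => root_ng i) hj]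
  exact Finset.sum_congr rfl fun i _ => (root_smul _ i).symm

theorem pr_rho2 {j : ι} (hj : j ∈ b.support) : pr P (rho2 b) j = 2 := by
  have h := smul_rho2 b hj
  rw [refl_smul_pr, sub_right_inj, ← two_smul K] at h
  have h2 : (pr P (rho2 b) j - 2) • P.root j = 0 := by rw [sub_smul, h, sub_self]
  rcases smul_eq_zero.mp h2 with h3 | h3
  · exact sub_eq_zero.mp h3
  · exact absurd h3 (P.ne_zero j)

theorem pr_rho {j : ι} (hj : j ∈ b.support) : pr P (rho b) j = 1 := by
  rw [rho, pr_smul, pr_rho2 b hj]
  norm_num

theorem smul_rho {j : ι} (hj : j ∈ b.support) :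
    RootPairing.Equiv.reflection P j • rho b = rho b - P.root j := by
  rw [refl_smul_pr, pr_rho b hj, one_smul]

theorem strict_rho : Strict b (rho b) := fun j hj => ⟨1, one_pos, by rw [pr_rho b hj]; simp⟩

theorem lev_add (x y : M) : lev b (x + y) = lev b x + lev b y := by
  simp [lev, pr_add, Finset.sum_add_distrib]

theorem lev_zero : lev b 0 = 0 := by simp [lev, pr]

theorem lev_smul (t : K) (x : M) : lev b (t • x) = t * lev b x := by
  simp [lev, pr_smul, Finset.mul_sum]

theorem lev_sub (x y : M) : lev b (x - y) = lev b x - lev b y := by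
  simp [lev, pr_sub, Finset.sum_sub_distrib]

theorem lev_refl (x : M) {j : ι} (hj : j ∈ b.support) :
    lev b (RootPairing.Equiv.reflection P j • x) = lev b x - (pr P x j + pr P x j) := by
  rw [lev, lev, ← sum_refl b (fun i => pr P x i) (fun i => pr_ng x i) hj]
  refine Finset.sum_congr rfl fun i _ => ?_
  rw [pr_smul', RootPairing.Equiv.reflection_inv]

theorem lev_simple {j : ι} (hj : j ∈ b.support) : lev b (P.root j) = 2 := by
  have h := lev_refl b (P.root j) hj
  rw [← root_smul, refl_smul_idx, root_ng] at h
  have h1 : lev b (-P.root j) = - lev b (P.root j) := by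
    have := lev_smul b (-1 : K) (P.root j)
    simpa using this
  have h2 : pr P (P.root j) j = 2 := by rw [pr_root]; simp
  rw [h1, h2] at h
  have h3 : (2 : K) * lev b (P.root j) = 2 * 2 := by linear_combination -h
  exact mul_left_cancel₀ two_ne_zero h3

/-- a sum of simple roots has nonnegative level, zero only for the zero sum -/
theorem lev_closure {x : M} (hx : x ∈ AddSubmonoid.closure (P.root '' b.support)) :
    ∃ m : ℕ, lev b x = 2 * m ∧ (m = 0 → x = 0) := by
  induction hx using AddSubmonoid.closure_induction with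
  | mem x hx =>
    obtain ⟨j, hj, rfl⟩ := hx
    exact ⟨1, by rw [lev_simple b hj]; simp, by simp⟩
  | zero => exact ⟨0, by rw [lev_zero]; simp, by simp⟩
  | add x y _ _ hx hy =>
    obtain ⟨m, h1, h2⟩ := hx
    obtain ⟨m', h3, h4⟩ := hy
    refine ⟨m + m', by rw [lev_add, h1, h3]; push_cast; ring, ?_⟩
    intro h
    rw [h2 (by omega), h4 (by omega), add_zero]

/-- the integral level -/
theorem lev_integral {x : M} (hx : Integral P x) : ∃ z : ℤ, lev b x = z := by
  choose f hf using hx
  exact ⟨∑ i ∈ pos b, f i, by rw [lev]; push_cast; exact Finset.sum_congr rfl fun i _ => hf i⟩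

theorem integral_smul_rho (w : P.Aut) (hw : w ∈ P.weylGroup) :
    ∃ κ : M, Integral P κ ∧ w • rho b = rho b - κ := by
  obtain ⟨l, hl, rfl⟩ := exists_word b hw
  clear hw
  induction l with
  | nil => exact ⟨0, integral_zero, by simp⟩
  | cons j t ih =>
    obtain ⟨κ, h1, h2⟩ := ih (fun k hk => hl k (List.mem_cons_of_mem _ hk))
    have hj : j ∈ b.support := hl j List.mem_cons_self
    refine ⟨P.root j + RootPairing.Equiv.reflection P j • κ, (integral_root j).add (h1.smul _), ?_⟩
    rw [word_cons, mul_smul, h2, smul_sub, smul_rho b hj]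
    abel

/-- positivity of a strictly dominant weight on all positive coroots -/
theorem Strict.pos {x : M} (hx : Strict b x) {i : ι} (hi : b.IsPos i) :
    ∃ z : ℤ, 0 < z ∧ pr P x i = z := by
  have h := coroot_mem_closure b hi
  have key : ∀ n ∈ AddSubmonoid.closure (P.coroot '' b.support),
      ∃ z : ℤ, 0 ≤ z ∧ (z = 0 → n = 0) ∧ P.toLinearMap x n = z := by
    intro n hn
    induction hn using AddSubmonoid.closure_induction with
    | mem n hn =>
      obtain ⟨j, hj, rfl⟩ := hn
      obtain ⟨z, h1, h2⟩ := hx j hj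
      exact ⟨z, h1.le, fun h => absurd h h1.ne', h2⟩
    | zero => exact ⟨0, le_rfl, fun _ => rfl, by simp⟩
    | add y y' _ _ hy hy' =>
      obtain ⟨z, h1, h2, h3⟩ := hy
      obtain ⟨z', h1', h2', h3'⟩ := hy'
      refine ⟨z + z', by omega, ?_, by rw [map_add, h3, h3']; push_cast; rfl⟩
      intro h
      rw [h2 (by omega), h2' (by omega), add_zero]
  obtain ⟨z, h1, h2, h3⟩ := key _ h
  refine ⟨z, ?_, h3⟩
  rcases h1.lt_or_eq with h4 | h4
  · exact h4
  · exact absurd (h2 h4.symm) (P.ne_zero' i)

/-- the stabiliser of a strictly dominant weight is trivial -/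
theorem Strict.stab {x : M} (hx : Strict b x) {w : P.Aut} (hw : w ∈ P.weylGroup)
    (h : w • x = x) : w = 1 := by
  apply eq_one b hw
  intro i hi
  by_contra hn
  obtain ⟨z, h1, h2⟩ := hx.pos b hi
  have h3 : b.IsPos (P.reflectionPerm (w • i) (w • i)) := by rw [isPos_ng]; exact hn
  obtain ⟨z', h4, h5⟩ := hx.pos b h3
  have h6 : pr P x (w • i) = pr P x i := by
    conv_lhs => rw [← h]
    rw [pr_smul_smul]
  rw [pr_ng, h6, h2] at h5
  have h7 : -z = z' := by exact_mod_cast h5
  omega

end

end H94W
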