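import Pool.Agent.Helper3.PF.WDefs
import Pool.Agent.Helper14.PF.WGroup
import Pool.Agent.Helper3.PF.WAlt
import Pool.Agent.Helper94.PF.Denom

/-!
Project PF / W4: transfer from `P.weylGroup` (files Helper94/PF/*) to the group `G P`.
-/

open Module AddMonoidAlgebra RootPairing

set_option linter.unusedSectionVars false

namespace PF.W

variable {ι K M N : Type*} [Field K] [CharZero K] [AddCommGroup M] [Module K M] [AddCommGroup N] [Module K N]
  [Fintype ι] {P : RootPairing ι K M N}

/-- an automorphism as a pair of linear automorphisms -/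
noncomputable def phi (P : RootPairing ι K M N) : P.Aut →* (M ≃ₗ[K] M) × (N ≃ₗ[K] N) where
  toFun w := (RootPairing.Equiv.weightEquiv P P w, (RootPairing.Equiv.coweightEquiv P P w)⁻¹)
  map_one' := by
    have h : RootPairing.Equiv.coweightEquiv P P 1 = 1 := by
      ext n; rfl
    ext x
    · simp
    · show ((RootPairing.Equiv.coweightEquiv P P 1)⁻¹ : N ≃ₗ[K] N) x = _
      rw [h]
      rfl
  map_mul' x y := by
    ext z
    · simp
    · have h : RootPairing.Equiv.coweightEquiv P P (x * y) =
          RootPairing.Equiv.coweightEquiv P P y * RootPairing.Equiv.coweightEquiv P P x := by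
        ext n; rfl
      show ((RootPairing.Equiv.coweightEquiv P P (x * y))⁻¹ : N ≃ₗ[K] N) z = _
      rw [h, mul_inv_rev]
      rfl

theorem phi_fst (w : P.Aut) (x : M) : (phi P w).1 x = w • x := rfl

theorem phi_refl (i : ι) :
    phi P (RootPairing.Equiv.reflection P i) = (P.reflection i, P.coreflection i) := by
  ext x
  · rfl
  · have h : ((RootPairing.Equiv.coweightEquiv P P (RootPairing.Equiv.reflection P i))⁻¹ :
        N ≃ₗ[K] N) = P.coreflection i := by
      rw [RootPairing.Equiv.reflection_coweightEquiv, inv_eq_iff_mul_eq_one]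
      ext n
      simp
    show ((RootPairing.Equiv.coweightEquiv P P (RootPairing.Equiv.reflection P i))⁻¹ :
        N ≃ₗ[K] N) x = _
    rw [h]

theorem map_weyl : P.weylGroup.map (phi P) = G P := by
  rw [weylGroup, MonoidHom.map_closure, G]
  congr 1
  ext g
  constructor
  · rintro ⟨_, ⟨i, rfl⟩, rfl⟩
    exact ⟨i, (phi_refl i).symm⟩
  · rintro ⟨i, rfl⟩
    exact ⟨_, ⟨i, rfl⟩, phi_refl i⟩

theorem exists_weyl {g : (M ≃ₗ[K] M) × (N ≃ₗ[K] N)} (hg : g ∈ G P) :
    ∃ w ∈ P.weylGroup, phi P w = g := by
  rw [← map_weyl] at hg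
  obtain ⟨w, hw, h⟩ := hg
  exact ⟨w, hw, h⟩

theorem phi_mem {w : P.Aut} (hw : w ∈ P.weylGroup) : phi P w ∈ G P := by
  rw [← map_weyl]
  exact ⟨w, hw, rfl⟩

theorem phi_injective : Function.Injective (phi P) := by
  intro w w' h
  apply H94W.aut_ext
  intro x
  rw [← phi_fst, ← phi_fst, h]

theorem phi_root (w : P.Aut) (i : ι) : (phi P w).1 (P.root i) = P.root (w • i) :=
  (H94W.root_smul w i).symm

/-- `P.weylGroup` and `G P` are isomorphic -/
noncomputable def phiEquiv (P : RootPairing ι K M N) : P.weylGroup ≃ G P :=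
  Equiv.ofBijective (fun w => ⟨phi P w.1, phi_mem w.2⟩) (by
    constructor
    · intro w w' h
      exact Subtype.ext (phi_injective (congrArg Subtype.val h))
    · rintro ⟨g, hg⟩
      obtain ⟨w, hw, rfl⟩ := exists_weyl hg
      exact ⟨⟨w, hw⟩, rfl⟩)

/-- the two signs agree -/
theorem sg_phi [P.IsRootSystem] [P.IsCrystallographic] [P.IsReduced] (b : P.Base)
    {w : P.Aut} (hw : w ∈ P.weylGroup) :
    sg (phi P w) = (((H94W.sgn b w : ℤˣ) : ℤ) : K) := by
  obtain ⟨l, hl, rfl⟩ := H94W.exists_word b hw
  clear hw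
  induction l with
  | nil =>
    rw [H94W.word_nil, map_one, map_one, sg_one]
    simp
  | cons j t ih =>
    rw [H94W.word_cons, map_mul, map_mul, sg_mul, ih (fun k hk => hl k (List.mem_cons_of_mem _ hk)),
      phi_refl, sg_refl, H94W.sgn_refl b (hl j List.mem_cons_self)]
    push_cast
    ring

/-! ### W4 -/

theorem pos_eq [P.IsCrystallographic] [P.IsReduced] (b : P.Base) : pos b = H94W.pos b := by
  ext i
  simp [pos]

theorem rho_eq [P.IsCrystallographic] [P.IsReduced] (b : P.Base) : rho b = H94W.rho b := by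
  rw [rho, H94W.rho, H94W.rho2, pos_eq, one_div]

theorem delta_eq' [P.IsCrystallographic] [P.IsReduced] (b : P.Base) :
    delta b = H94W.delta b K := by
  rw [delta, H94W.delta, pos_eq]
  simp only [H94W.dd, one_div]

theorem below_iff [P.IsCrystallographic] [P.IsReduced] (b : P.Base) (Λ μ : M) :
    Below b Λ μ ↔ ∃ κ ∈ H94W.cone b, μ = Λ - κ := by
  constructor
  · rintro ⟨κ, h⟩
    refine ⟨∑ i ∈ b.support, (κ i : K) • P.root i, ?_, h⟩
    apply AddSubmonoid.sum_mem
    intro i hi
    rw [Nat.cast_smul_eq_nsmul]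
    exact AddSubmonoid.nsmul_mem _ (AddSubmonoid.subset_closure (Set.mem_image_of_mem _ hi)) _
  · rintro ⟨κ, hκ, h⟩
    have key : ∀ x ∈ H94W.cone b, ∃ κ : ι → ℕ, x = ∑ i ∈ b.support, (κ i : K) • P.root i := by
      intro x hx
      unfold H94W.cone at hx
      induction hx using AddSubmonoid.closure_induction with
      | mem x hx =>
        classical
        obtain ⟨j, hj, rfl⟩ := hx
        refine ⟨Pi.single j 1, ?_⟩
        rw [Finset.sum_eq_single j]
        · simp
        · intro k _ hk
          simp [hk]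
        · intro h
          exact absurd hj h
      | zero => exact ⟨0, by simp⟩
      | add x y _ _ hx hy =>
        obtain ⟨f, hf⟩ := hx
        obtain ⟨g, hg⟩ := hy
        refine ⟨f + g, ?_⟩
        rw [hf, hg, ← Finset.sum_add_distrib]
        refine Finset.sum_congr rfl fun i _ => ?_
        rw [Pi.add_apply]
        push_cast
        rw [add_smul]
    obtain ⟨f, hf⟩ := key κ hκ
    exact ⟨f, by rw [h, hf]⟩

theorem act_delta [P.IsRootSystem] [P.IsCrystallographic] [P.IsReduced] (b : P.Base) (i : ι) :
    act (P.reflection i) (delta b) = -delta b := by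
  have h1 : act (P.reflection i) (delta b) =
      H94W.act K (RootPairing.Equiv.reflection P i) (delta b) := by
    ext μ
    rw [act_coeff]
    have h2 : μ = RootPairing.Equiv.reflection P i • ((P.reflection i).symm μ) := by
      rw [RootPairing.Equiv.reflection_smul, LinearEquiv.apply_symm_apply]
    conv_rhs => rw [h2]
    rw [H94W.act_coeff]
  have h3 : H94W.sgn b (RootPairing.Equiv.reflection P i) = -1 := by
    have h4 := sg_phi b (P.reflection_mem_weylGroup i)
    rw [phi_refl, sg_refl] at h4
    rcases Int.units_eq_one_or (H94W.sgn b (RootPairing.Equiv.reflection P i)) with h5 | h5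
    · exfalso
      rw [h5] at h4
      norm_num at h4
    · exact h5
  rw [h1, delta_eq', H94W.act_delta, h3]
  simp

theorem delta_below [P.IsCrystallographic] [P.IsReduced] (b : P.Base) {μ : M}
    (h : (delta b).coeff μ ≠ 0) : Below b (rho b) μ := by
  rw [below_iff, rho_eq]
  rw [delta_eq'] at h
  exact H94W.delta_exp b K h

theorem delta_coeff_rho [P.IsCrystallographic] [P.IsReduced] (b : P.Base) :
    (delta b).coeff (rho b) = 1 := by
  rw [delta_eq', rho_eq]
  exact H94W.delta_top b K

theorem rho_coroot [P.IsCrystallographic] [P.IsReduced] (b : P.Base) {i : ι} (hi : i ∈ b.support) :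
    P.toLinearMap (rho b) (P.coroot i) = 1 := by
  rw [rho_eq]
  exact H94W.pr_rho b hi

theorem integral_rho [P.IsCrystallographic] [P.IsReduced] (b : P.Base) : Integral P (rho b) := by
  rw [rho_eq]
  exact H94W.integral_rho b

theorem integral_of_below [P.IsCrystallographic] [P.IsReduced] (b : P.Base) {Λ μ : M}
    (hΛ : Integral P Λ) (h : Below b Λ μ) : Integral P μ := by
  rw [below_iff] at h
  obtain ⟨κ, h1, rfl⟩ := h
  exact H94W.Integral.sub (P := P) hΛ (H94W.integral_cone b h1)

theorem sdom_below_rho [P.IsRootSystem] [P.IsCrystallographic] [P.IsReduced] (b : P.Base) {μ : M}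
    (h : Below b (rho b) μ) (hd : SDom b μ) : μ = rho b := by
  rw [below_iff] at h
  obtain ⟨κ, h1, rfl⟩ := h
  have h2 : κ = 0 := by
    apply H94W.cone_antidominant b h1
    intro j hj
    obtain ⟨z, h3, h4⟩ := hd j hj
    refine ⟨1 - z, by omega, ?_⟩
    rw [map_sub, LinearMap.sub_apply, rho_coroot b hj] at h4
    show P.toLinearMap κ (P.coroot j) = _
    push_cast
    rw [← h4]
    ring
  rw [h2, sub_zero]

theorem denom [P.IsRootSystem] [P.IsCrystallographic] [P.IsReduced] (b : P.Base) [Fintype (G P)] :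
    delta b = ∑ g : G P, single (g.1.1 (rho b)) (sg g.1 : K) := by
  have h := alt_eq b (delta b) (act_delta b) (fun μ hμ => integral_of_below b (integral_rho b)
    (delta_below b hμ)) (Λ := rho b) (fun i hi => ⟨1, one_pos, by rw [rho_coroot b hi]; simp⟩)
    (fun μ hμ hd => sdom_below_rho b (delta_below b hμ) hd)
  rw [delta_coeff_rho] at h
  simpa using h

end PF.W
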