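import Mathlib

/-!
Weyl groups of crystallographic reduced root pairings over a field of characteristic 0:
generation by simple reflections, exchange lemma, an element preserving the positive roots is 1,
the sign character.
-/

open RootPairing Set Function

set_option linter.unusedSectionVars false

namespace H94W

noncomputable section

variable {ι K M N : Type*} [Field K] [CharZero K] [AddCommGroup M] [Module K M]
  [AddCommGroup N] [Module K N] {P : RootPairing ι K M N}

theorem root_smul (g : P.Aut) (i : ι) : P.root (g • i) = g • P.root i :=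
  RootPairing.Equiv.root_indexEquiv_eq_smul P i g

theorem smul_pairing (g : P.Aut) (x : M) (i : ι) :
    P.toLinearMap (g • x) (P.coroot (g • i)) = P.toLinearMap x (P.coroot i) := by
  have h := Hom.weight_coweight_transpose_apply P P (P.coroot (g • i)) g.toHom
  have h2 := Hom.coroot_coweightMap_apply P P (g • i) g.toHom
  have h3 : g.toHom.indexEquiv.symm (g • i) = i := g.toHom.indexEquiv.symm_apply_apply i
  rw [h2, h3] at h
  have h4 := congrArg (fun f => f x) h
  simp only [LinearMap.dualMap_apply, LinearMap.toPerfPair_apply] at h4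
  exact h4

theorem refl_smul (j : ι) (x : M) :
    RootPairing.Equiv.reflection P j • x = x - P.toLinearMap x (P.coroot j) • P.root j := by
  rw [RootPairing.Equiv.reflection_smul, reflection_apply]
  rfl

theorem refl_smul_idx (i j : ι) : RootPairing.Equiv.reflection P j • i = P.reflectionPerm j i := rfl

theorem aut_ext {g h : P.Aut} (H : ∀ x : M, g • x = h • x) : g = h := by
  apply RootPairing.Equiv.weightHom_injective P
  ext x
  exact H x

theorem conj_refl (g : P.Aut) (i : ι) :
    g * RootPairing.Equiv.reflection P i * g⁻¹ = RootPairing.Equiv.reflection P (g • i) := by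
  apply aut_ext
  intro x
  rw [mul_smul, mul_smul, refl_smul, refl_smul, smul_sub, smul_inv_smul, smul_comm g, root_smul]
  congr 2
  conv_rhs => rw [← smul_inv_smul g x]
  rw [smul_pairing]

theorem refl_mul_self (i : ι) :
    RootPairing.Equiv.reflection P i * RootPairing.Equiv.reflection P i = 1 := by
  rw [mul_eq_one_iff_inv_eq, RootPairing.Equiv.reflection_inv]

variable [Finite ι] [P.IsCrystallographic] [P.IsReduced] (b : P.Base)

/-- the Weyl group is generated by the simple reflections -/
theorem mem_closure (i : ι) : RootPairing.Equiv.reflection P i ∈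
    Subgroup.closure (RootPairing.Equiv.reflection P '' (b.support : Set ι)) := by
  set C := Subgroup.closure (RootPairing.Equiv.reflection P '' (b.support : Set ι)) with hC
  refine b.induction_reflect i (p := fun i => RootPairing.Equiv.reflection P i ∈ C) ?_ ?_ ?_
  · intro i hi
    rw [← refl_smul_idx, ← conj_refl]
    exact C.mul_mem (C.mul_mem hi hi) (C.inv_mem hi)
  · intro i hi
    exact Subgroup.subset_closure ⟨i, hi, rfl⟩
  · intro i j hi hj
    have hj' : RootPairing.Equiv.reflection P j ∈ C := Subgroup.subset_closure ⟨j, hj, rfl⟩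
    rw [← refl_smul_idx, ← conj_refl]
    exact C.mul_mem (C.mul_mem hj' hi) (C.inv_mem hj')

theorem weyl_eq : P.weylGroup =
    Subgroup.closure (RootPairing.Equiv.reflection P '' (b.support : Set ι)) := by
  apply le_antisymm
  · rw [weylGroup, Subgroup.closure_le]
    rintro _ ⟨i, rfl⟩
    exact mem_closure b i
  · rw [Subgroup.closure_le]
    rintro _ ⟨i, -, rfl⟩
    exact P.reflection_mem_weylGroup i

/-- the product of a word in the reflections -/
def word (P : RootPairing ι K M N) (l : List ι) : P.Aut :=
  (l.map (RootPairing.Equiv.reflection P)).prod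

@[simp] theorem word_nil : word P [] = 1 := rfl

@[simp] theorem word_cons (i : ι) (l : List ι) :
    word P (i :: l) = RootPairing.Equiv.reflection P i * word P l := by
  simp [word]

theorem word_append (l l' : List ι) : word P (l ++ l') = word P l * word P l' := by
  simp [word]

theorem exists_word {w : P.Aut} (hw : w ∈ P.weylGroup) :
    ∃ l : List ι, (∀ j ∈ l, j ∈ b.support) ∧ word P l = w := by
  rw [weyl_eq b] at hw
  induction hw using Subgroup.closure_induction'' with
  | one => exact ⟨[], by simp, rfl⟩
  | mem x hx =>
    obtain ⟨j, hj, rfl⟩ := hx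
    exact ⟨[j], by simpa using hj, by simp⟩
  | inv_mem x hx =>
    obtain ⟨j, hj, rfl⟩ := hx
    exact ⟨[j], by simpa using hj, by simp⟩
  | mul x y _ _ hx hy =>
    obtain ⟨l, hl, rfl⟩ := hx
    obtain ⟨l', hl', rfl⟩ := hy
    refine ⟨l ++ l', ?_, word_append l l'⟩
    intro j hj
    rcases List.mem_append.mp hj with h | h
    · exact hl j h
    · exact hl' j h

/-- a simple reflection makes only one positive root negative -/
theorem eq_of_neg {i j : ι} (hi : b.IsPos i) (hj : j ∈ b.support)
    (h : ¬ b.IsPos (RootPairing.Equiv.reflection P j • i)) : i = j := by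
  by_contra hij
  exact h (hi.reflectionPerm hj hij)

theorem not_isPos_refl_self {j : ι} (hj : j ∈ b.support) :
    ¬ b.IsPos (RootPairing.Equiv.reflection P j • j) := by
  have h := b.height_reflectionPerm_self j
  rw [refl_smul_idx, Base.isPos_iff]
  have h1 : b.height (P.reflectionPerm j j) = - b.height j := h
  rw [h1, Base.height_one_of_mem_support hj]
  norm_num

/-- exchange -/
theorem exchange (l : List ι) (hl : ∀ j ∈ l, j ∈ b.support) {j : ι} (hj : j ∈ b.support)
    (h : ¬ b.IsPos (word P l • j)) :
    ∃ l' : List ι, (∀ k ∈ l', k ∈ b.support) ∧ l'.length + 1 = l.length ∧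
      word P l * RootPairing.Equiv.reflection P j = word P l' := by
  induction l with
  | nil =>
    exfalso
    apply h
    simpa using Base.isPos_of_mem_support hj
  | cons i t ih =>
    have ht : ∀ k ∈ t, k ∈ b.support := fun k hk => hl k (List.mem_cons_of_mem _ hk)
    have hi : i ∈ b.support := hl i List.mem_cons_self
    by_cases hp : b.IsPos (word P t • j)
    · have e : word P t • j = i := by
        apply eq_of_neg b hp hi
        rw [word_cons, mul_smul] at h
        exact h
      refine ⟨t, ht, by simp, ?_⟩
      have hc := conj_refl (word P t) j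
      rw [e] at hc
      rw [word_cons, ← hc, inv_mul_cancel_right, mul_assoc, refl_mul_self, mul_one]
    · obtain ⟨l', h1, h2, h3⟩ := ih ht hp
      refine ⟨i :: l', ?_, by simp [h2], ?_⟩
      · intro k hk
        rcases List.mem_cons.mp hk with rfl | hk
        · exact hi
        · exact h1 k hk
      · rw [word_cons, mul_assoc, h3, word_cons]

/-- an element of the Weyl group that keeps the positive roots positive is trivial -/
theorem eq_one {w : P.Aut} (hw : w ∈ P.weylGroup) (h : ∀ i, b.IsPos i → b.IsPos (w • i)) :
    w = 1 := by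
  classical
  have hex : ∃ n, ∃ l : List ι, (∀ j ∈ l, j ∈ b.support) ∧ word P l = w ∧ l.length = n := by
    obtain ⟨l, h1, h2⟩ := exists_word b hw
    exact ⟨_, l, h1, h2, rfl⟩
  obtain ⟨l, h1, h2, h3⟩ := Nat.find_spec hex
  rcases List.eq_nil_or_concat l with rfl | ⟨t, j, rfl⟩
  · rw [← h2]; rfl
  · exfalso
    have hj : j ∈ b.support := h1 j (by simp)
    have ht : ∀ k ∈ t, k ∈ b.support := fun k hk => h1 k (by simp [hk])
    have e : w = word P t * RootPairing.Equiv.reflection P j := by
      rw [← h2, List.concat_eq_append, word_append]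
      simp
    have hneg : ¬ b.IsPos (word P t • j) := by
      intro hp
      have h4 := h j (Base.isPos_of_mem_support hj)
      rw [e, mul_smul] at h4
      have h5 : b.height (word P t • (RootPairing.Equiv.reflection P j • j)) =
          - b.height (word P t • j) := by
        have h6 : word P t • (RootPairing.Equiv.reflection P j • j) =
            P.reflectionPerm (word P t • j) (word P t • j) := by
          rw [← refl_smul_idx, ← conj_refl, mul_smul, mul_smul, inv_smul_smul]
        rw [h6]
        exact b.height_reflectionPerm_self _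
      rw [Base.isPos_iff] at h4 hp
      rw [h5] at h4
      omega
    obtain ⟨l', h6, h7, h8⟩ := exchange b t ht hj hneg
    have h9 := Nat.find_min' hex ⟨l', h6, by rw [← h8, e], rfl⟩
    rw [← h3] at h9
    simp at h9
    omega

theorem perm_injective [P.IsRootSystem] :
    Injective (fun (w : P.weylGroup) (i : ι) => w.1 • i) := by
  obtain ⟨b⟩ := RootPairing.nonempty_base (P := P)
  intro w w' h
  have h1 : w'⁻¹ * w = 1 := by
    have h2 : (w'⁻¹ * w).1 = 1 := by
      apply eq_one b (w'⁻¹ * w).2
      intro i hi
      have h3 : (w'⁻¹ * w).1 • i = i := by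
        have h4 : w.1 • i = w'.1 • i := congrFun h i
        have h5 : (w'⁻¹ * w).1 = w'.1⁻¹ * w.1 := rfl
        rw [h5, mul_smul, h4, inv_smul_smul]
      rwa [h3]
    exact Subtype.ext h2
  exact (inv_mul_eq_one.mp h1).symm

instance instFinite [P.IsRootSystem] : Finite P.weylGroup :=
  Finite.of_injective _ perm_injective

/-! ### negative of an index, the set of positive roots -/

theorem root_ng (i : ι) : P.root (P.reflectionPerm i i) = - P.root i := by
  rw [root_reflectionPerm]
  simp

theorem height_ng (i : ι) : b.height (P.reflectionPerm i i) = - b.height i :=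
  b.height_reflectionPerm_self i

theorem isPos_ng (i : ι) : b.IsPos (P.reflectionPerm i i) ↔ ¬ b.IsPos i := by
  rw [Base.isPos_iff, Base.isPos_iff, height_ng]
  have := b.height_ne_zero i
  omega

theorem smul_ng (w : P.Aut) (i : ι) :
    w • P.reflectionPerm i i = P.reflectionPerm (w • i) (w • i) := by
  rw [← refl_smul_idx, ← refl_smul_idx, ← conj_refl, mul_smul, mul_smul, inv_smul_smul]

theorem ng_ng (i : ι) : P.reflectionPerm (P.reflectionPerm i i) (P.reflectionPerm i i) = i := by
  apply P.root.injective
  rw [root_ng, root_ng, neg_neg]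

/-- the finite set of positive roots -/
def pos : Finset ι := (Set.toFinite {i | b.IsPos i}).toFinset

@[simp] theorem mem_pos (i : ι) : i ∈ pos b ↔ b.IsPos i := by simp [pos]

open Classical in
/-- the sign of a root -/
def u (i : ι) : ℤˣ := if b.IsPos i then 1 else -1

theorem u_pos {i : ι} (h : b.IsPos i) : u b i = 1 := if_pos h

theorem u_neg {i : ι} (h : ¬ b.IsPos i) : u b i = -1 := if_neg h

theorem u_ng (i : ι) : u b (P.reflectionPerm i i) = - u b i := by
  by_cases h : b.IsPos i
  · rw [u_pos b h, u_neg b (by rw [isPos_ng]; exact not_not.mpr h)]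
  · rw [u_neg b h, u_pos b (by rw [isPos_ng]; exact h), neg_neg]

open Classical in
/-- the positive one among a root and its negative -/
def ab (i : ι) : ι := if b.IsPos i then i else P.reflectionPerm i i

theorem isPos_ab (i : ι) : b.IsPos (ab b i) := by
  unfold ab
  split_ifs with h
  · exact h
  · rw [isPos_ng]; exact h

theorem u_ab (w : P.Aut) (i : ι) : u b (w • i) = u b (w • ab b i) * u b i := by
  unfold ab
  split_ifs with h
  · rw [u_pos b h, mul_one]
  · rw [u_neg b h, smul_ng, u_ng]
    simp

theorem ab_eq (i : ι) : ab b i = i ∨ ab b i = P.reflectionPerm i i := by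
  unfold ab
  split_ifs with h
  · exact Or.inl rfl
  · exact Or.inr rfl

theorem ab_inj (w : P.Aut) {i i' : ι} (hi : b.IsPos i) (hi' : b.IsPos i')
    (h : ab b (w • i) = ab b (w • i')) : i = i' := by
  have key : w • i = w • i' ∨ w • i = P.reflectionPerm (w • i') (w • i') := by
    rcases ab_eq b (w • i) with h1 | h1 <;> rcases ab_eq b (w • i') with h2 | h2
    · exact Or.inl (by rw [← h1, h, h2])
    · exact Or.inr (by rw [← h1, h, h2])
    · right
      have h3 : P.reflectionPerm (w • i) (w • i) = w • i' := by rw [← h1, h, h2]
      rw [← h3, ng_ng]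
    · left
      have h3 : P.reflectionPerm (w • i) (w • i) = P.reflectionPerm (w • i') (w • i') := by
        rw [← h1, h, h2]
      rw [← ng_ng (P := P) (w • i), h3, ng_ng]
  rcases key with h1 | h1
  · exact MulAction.injective w h1
  · exfalso
    rw [← smul_ng] at h1
    have h2 : i = P.reflectionPerm i' i' := MulAction.injective w h1
    rw [h2, isPos_ng] at hi
    exact hi hi'

theorem injOn_ab (w : P.Aut) : Set.InjOn (fun i => ab b (w • i)) (pos b : Set ι) := by
  intro i hi i' hi' h
  exact ab_inj b w (by simpa using hi) (by simpa using hi') h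

open Classical in
theorem image_ab (w : P.Aut) : (pos b).image (fun i => ab b (w • i)) = pos b := by
  apply Finset.eq_of_subset_of_card_le
  · intro k hk
    obtain ⟨i, -, rfl⟩ := Finset.mem_image.mp hk
    simpa using isPos_ab b (w • i)
  · rw [Finset.card_image_of_injOn (injOn_ab b w)]

theorem prod_ab {A : Type*} [CommMonoid A] (w : P.Aut) (f : ι → A) :
    ∏ i ∈ pos b, f (ab b (w • i)) = ∏ i ∈ pos b, f i := by
  classical
  conv_rhs => rw [← image_ab b w]
  rw [Finset.prod_image (injOn_ab b w)]

theorem sum_ab {A : Type*} [AddCommMonoid A] (w : P.Aut) (f : ι → A) :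
    ∑ i ∈ pos b, f (ab b (w • i)) = ∑ i ∈ pos b, f i := by
  classical
  conv_rhs => rw [← image_ab b w]
  rw [Finset.sum_image (injOn_ab b w)]

theorem ab_of_isPos {i : ι} (h : b.IsPos i) : ab b i = i := if_pos h

theorem ab_of_not {i : ι} (h : ¬ b.IsPos i) : ab b i = P.reflectionPerm i i := if_neg h

/-- the effect of a simple reflection on a sum over the positive roots -/
theorem sum_refl {A : Type*} [AddCommGroup A] (g : ι → A)
    (hg : ∀ i, g (P.reflectionPerm i i) = - g i) {j : ι} (hj : j ∈ b.support) :
    ∑ i ∈ pos b, g (RootPairing.Equiv.reflection P j • i) = ∑ i ∈ pos b, g i - (g j + g j) := by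
  classical
  rw [← sum_ab b (RootPairing.Equiv.reflection P j) g, eq_sub_iff_add_eq, add_comm,
    ← eq_sub_iff_add_eq, ← Finset.sum_sub_distrib, Finset.sum_eq_single j]
  · rw [ab_of_not b (not_isPos_refl_self b hj), refl_smul_idx, ng_ng, hg]
    abel
  · intro i hi hij
    have h1 : b.IsPos (RootPairing.Equiv.reflection P j • i) := by
      by_contra h
      exact hij (eq_of_neg b (by simpa using hi) hj h)
    rw [ab_of_isPos b h1, sub_self]
  · intro h
    exact absurd (by simpa using Base.isPos_of_mem_support hj) h

/-- the sign character -/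
def sgn : P.Aut →* ℤˣ where
  toFun w := ∏ i ∈ pos b, u b (w • i)
  map_one' := by
    apply Finset.prod_eq_one
    intro i hi
    rw [one_smul]
    exact u_pos b (by simpa using hi)
  map_mul' w w' := by
    have h1 : ∏ i ∈ pos b, u b ((w * w') • i) =
        ∏ i ∈ pos b, (u b (w • ab b (w' • i)) * u b (w' • i)) := by
      apply Finset.prod_congr rfl
      intro i _
      rw [mul_smul, u_ab]
    rw [h1, Finset.prod_mul_distrib, prod_ab b w' (fun i => u b (w • i))]

theorem sgn_apply (w : P.Aut) : sgn b w = ∏ i ∈ pos b, u b (w • i) := rfl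

theorem sgn_refl {j : ι} (hj : j ∈ b.support) :
    sgn b (RootPairing.Equiv.reflection P j) = -1 := by
  classical
  rw [sgn_apply, Finset.prod_eq_single j]
  · exact u_neg b (not_isPos_refl_self b hj)
  · intro i hi hij
    apply u_pos
    by_contra h
    exact hij (eq_of_neg b (by simpa using hi) hj h)
  · intro h
    exfalso
    apply h
    simpa using Base.isPos_of_mem_support hj

end

end H94W
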